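import Mathlib

-- merged part: Pool.Agent.Work.MP_102156_al.Basic
section
/-!
Basic facts about periodic FC-groups.
-/

set_option autoImplicit false

open Subgroup
open scoped commutatorElement IsMulCommutative

namespace Pool.Agent.Work.MP_102156_al

universe u

/-- all conjugacy classes are finite -/
def FC (G : Type u) [Group G] : Prop := ∀ g : G, {h : G | IsConj g h}.Finite

/-- points of the derived subgroup are separated by normal subgroups of finite index -/
def Sep (G : Type u) [Group G] : Prop :=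
  ∀ x ∈ commutator G, x ≠ 1 → ∃ N : Subgroup G, N.Normal ∧ N.FiniteIndex ∧ x ∉ N

variable {G : Type u} [Group G]

lemma FC.finiteIndex_centralizer_singleton (h : FC G) (g : G) :
    (centralizer ({g} : Set G)).FiniteIndex := by
  have hfin : Finite {x : G | IsConj g x} := (h g).to_subtype
  let φ : G ⧸ centralizer ({g} : Set G) → {x : G | IsConj g x} :=
    Quotient.lift (fun a => ⟨a * g * a⁻¹, isConj_iff.mpr ⟨a, rfl⟩⟩) (by
      intro a b hab
      have hab' : a⁻¹ * b ∈ centralizer ({g} : Set G) := QuotientGroup.leftRel_apply.mp hab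
      have := (mem_centralizer_singleton_iff.mp hab')
      apply Subtype.ext
      change a * g * a⁻¹ = b * g * b⁻¹
      calc a * g * a⁻¹ = a * (g * (a⁻¹ * b)) * b⁻¹ := by group
        _ = a * (a⁻¹ * b * g) * b⁻¹ := by rw [this]
        _ = b * g * b⁻¹ := by group)
  have hφ : Function.Injective φ := by
    intro a b
    induction a using QuotientGroup.induction_on with | _ a => ?_
    induction b using QuotientGroup.induction_on with | _ b => ?_
    intro hab
    have h1 : a * g * a⁻¹ = b * g * b⁻¹ := congrArg Subtype.val hab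
    rw [QuotientGroup.eq, mem_centralizer_singleton_iff]
    calc a⁻¹ * b * g = a⁻¹ * (b * g * b⁻¹) * b := by group
      _ = a⁻¹ * (a * g * a⁻¹) * b := by rw [h1]
      _ = g * (a⁻¹ * b) := by group
  have : Finite (G ⧸ centralizer ({g} : Set G)) := Finite.of_injective φ hφ
  exact finiteIndex_of_finite_quotient

lemma FC.finiteIndex_centralizer (h : FC G) {s : Set G} (hs : s.Finite) :
    (centralizer s).FiniteIndex := by
  have h1 := finiteIndex_iInf' (s := hs.toFinset) (fun g => centralizer ({g} : Set G))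
    (fun g _ => h.finiteIndex_centralizer_singleton g)
  refine finiteIndex_of_le (H := ⨅ g ∈ hs.toFinset, centralizer ({g} : Set G)) ?_
  intro x hx
  rw [mem_centralizer_iff]
  intro g hg
  simp only [mem_iInf] at hx
  exact (mem_centralizer_singleton_iff.mp (hx g (hs.mem_toFinset.mpr hg))).symm

lemma FC.finite_comm (h : FC G) (g : G) : (Set.range fun y : G => ⁅g, y⁆).Finite := by
  refine ((h g⁻¹).image fun x => g * x).subset ?_
  rintro _ ⟨y, rfl⟩
  exact ⟨y * g⁻¹ * y⁻¹, isConj_iff.mpr ⟨y, rfl⟩, by simp only [commutatorElement_def]; group⟩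

lemma FC.quotient (h : FC G) (B : Subgroup G) [B.Normal] : FC (G ⧸ B) := by
  intro q
  induction q using QuotientGroup.induction_on with | _ g => ?_
  refine ((h g).image (QuotientGroup.mk : G → G ⧸ B)).subset ?_
  intro x hx
  obtain ⟨c, rfl⟩ := isConj_iff.mp hx
  induction c using QuotientGroup.induction_on with | _ c => ?_
  exact ⟨c * g * c⁻¹, isConj_iff.mpr ⟨c, rfl⟩, rfl⟩

/-- Dietzmann's lemma -/
lemma FC.finite_normalClosure (h : FC G) (ht : IsMulTorsion G) {s : Set G} (hs : s.Finite) :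
    (normalClosure s : Set G).Finite := by
  have hT : (Group.conjugatesOfSet s).Finite := hs.biUnion fun g _ => h g
  set T := Group.conjugatesOfSet s with hTdef
  have hM : normalClosure s = closure T := rfl
  rw [hM]
  have : Finite T := hT.to_subtype
  have hfg : Group.FG (closure T) := Group.closure_finite_fg T
  have hC := h.finiteIndex_centralizer hT
  have hZ : (center (closure T)).FiniteIndex := by
    refine finiteIndex_of_le (H := (centralizer T).subgroupOf (closure T)) ?_
    intro x hx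
    rw [mem_subgroupOf, ← centralizer_closure] at hx
    rw [mem_center_iff]
    intro y
    exact Subtype.ext (hx y y.2)
  have hZfin : Finite (center (closure T)) :=
    CommGroup.finite_of_fg_isMulTorsion _ ((ht.subgroup _).subgroup _)
  have : Finite (closure T) := (finite_iff_finite_and_finiteIndex _).mpr ⟨hZfin, hZ⟩
  exact Set.toFinite _

lemma Sep.exists_of_finite (h : Sep G) {s : Set G} (hs : s.Finite) (hsG : s ⊆ commutator G) :
    ∃ N : Subgroup G, N.Normal ∧ N.FiniteIndex ∧ ∀ x ∈ s, x ∈ N → x = 1 := by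
  classical
  have h1 : ∀ x : G, ∃ N : Subgroup G, N.Normal ∧ N.FiniteIndex ∧ (x ∈ s → x ∈ N → x = 1) := by
    intro x
    by_cases hx : x ∈ s ∧ x ≠ 1
    · obtain ⟨N, h1, h2, h3⟩ := h x (hsG hx.1) hx.2
      exact ⟨N, h1, h2, fun _ h4 => absurd h4 h3⟩
    · refine ⟨⊤, inferInstance, inferInstance, fun h1 _ => ?_⟩
      by_contra h2
      exact hx ⟨h1, h2⟩
  choose N h1 h2 h3 using h1
  refine ⟨⨅ x ∈ hs.toFinset, N x, ?_, finiteIndex_iInf' _ fun x _ => h2 x, fun x hx hxN => ?_⟩
  · refine ⟨fun a ha g => ?_⟩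
    simp only [mem_iInf] at ha ⊢
    exact fun x hx => (h1 x).conj_mem a (ha x hx) g
  · simp only [mem_iInf] at hxN
    exact h3 x hx (hxN x (hs.mem_toFinset.mpr hx))

/-- a centre-by-finite group of finite exponent is residually finite -/
lemma exists_normal_of_center {Q : Type u} [Group Q] (hZ : (center Q).FiniteIndex) {e : ℕ}
    (he : e ≠ 0) (hpow : ∀ q : Q, q ^ e = 1) {w : Q} (hw : w ≠ 1) :
    ∃ N : Subgroup Q, N.Normal ∧ N.FiniteIndex ∧ w ∉ N := by
  by_cases hwZ : w ∈ center Q
  swap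
  · exact ⟨center Q, inferInstance, hZ, hwZ⟩
  have hne : (Additive.ofMul (⟨w, hwZ⟩ : center Q)) ≠ 0 := fun h =>
    hw (congrArg Subtype.val (Additive.ofMul.injective h))
  obtain ⟨c, hc⟩ := CharacterModule.exists_character_apply_ne_zero_of_ne_zero hne
  let c' : Additive (center Q) →+ AddCircle (1 : ℚ) := c
  let φ : center Q →* Multiplicative (AddCircle (1 : ℚ)) := AddMonoidHom.toMultiplicativeRight c'
  have hrange : Finite φ.range := by
    have hfin := AddCircle.finite_torsion (1 : ℚ) (Nat.pos_of_ne_zero he)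
    refine Set.Finite.to_subtype (s := (φ.range : Set (Multiplicative (AddCircle (1 : ℚ))))) ?_
    refine (hfin.image Multiplicative.ofAdd).subset ?_
    rintro _ ⟨z, rfl⟩
    refine ⟨c' (Additive.ofMul z), ?_, rfl⟩
    change e • c' (Additive.ofMul z) = 0
    rw [← map_nsmul, ← ofMul_pow]
    have : z ^ e = 1 := Subtype.ext (hpow z)
    rw [this, ofMul_one, map_zero]
  have hker : φ.ker.FiniteIndex := inferInstance
  refine ⟨φ.ker.map (center Q).subtype, ⟨?_⟩, ⟨?_⟩, ?_⟩
  · rintro _ ⟨z, hz, rfl⟩ g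
    refine ⟨z, hz, ?_⟩
    have := mem_center_iff.mp z.2 g
    change (z : Q) = g * z * g⁻¹
    rw [this, mul_inv_cancel_right]
  · rw [index_map_subtype]
    exact mul_ne_zero hker.index_ne_zero hZ.index_ne_zero
  · rintro ⟨z, hz, hzw⟩
    have : z = ⟨w, hwZ⟩ := Subtype.ext hzw
    subst this
    exact hc hz

/-- relative form of the previous lemma -/
lemma exists_normal_ge (B : Subgroup G) [B.Normal] (A : Subgroup G) (hA : A.FiniteIndex)
    (hAB : ∀ a ∈ A, ∀ g : G, ⁅a, g⁆ ∈ B) {e : ℕ} (he : e ≠ 0) (hpow : ∀ g : G, g ^ e ∈ B) {x : G}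
    (hx : x ∉ B) : ∃ N : Subgroup G, N.Normal ∧ N.FiniteIndex ∧ B ≤ N ∧ x ∉ N := by
  have hZ : (center (G ⧸ B)).FiniteIndex := by
    have h1 : (A.map (QuotientGroup.mk' B)).FiniteIndex :=
      ⟨ne_zero_of_dvd_ne_zero hA.index_ne_zero
        (index_map_dvd A (QuotientGroup.mk'_surjective B))⟩
    refine finiteIndex_of_le (H := A.map (QuotientGroup.mk' B)) ?_
    rintro _ ⟨a, ha, rfl⟩
    rw [mem_center_iff]
    intro g
    induction g using QuotientGroup.induction_on with | _ g => ?_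
    have h2 : ⁅(QuotientGroup.mk' B) a, (QuotientGroup.mk' B) g⁆ = 1 := by
      rw [← map_commutatorElement]
      exact (QuotientGroup.eq_one_iff _).mpr (hAB a ha g)
    exact (commutatorElement_eq_one_iff_mul_comm.mp h2).symm
  obtain ⟨N, h1, h2, h3⟩ := exists_normal_of_center hZ he (fun q => by
    induction q using QuotientGroup.induction_on with | _ g => ?_
    exact (QuotientGroup.eq_one_iff _).mpr (hpow g))
    (w := (x : G ⧸ B)) (fun h => hx ((QuotientGroup.eq_one_iff _).mp h))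
  refine ⟨N.comap (QuotientGroup.mk' B), h1.comap _, ⟨?_⟩, fun b hb => ?_, h3⟩
  · rw [index_comap_of_surjective _ (QuotientGroup.mk'_surjective B)]
    exact h2.index_ne_zero
  · rw [mem_comap, QuotientGroup.mk'_apply, (QuotientGroup.eq_one_iff b).mpr hb]
    exact N.one_mem

end Pool.Agent.Work.MP_102156_al
end

-- merged part: Pool.Agent.Work.MP_102156_al.Closed
section
/-!
Closed subgroups of an FC-group and the splitting of the derived subgroup they induce.
-/

set_option autoImplicit false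

open Subgroup Cardinal
open scoped commutatorElement

namespace Pool.Agent.Work.MP_102156_al

universe u

variable {G : Type u} [Group G]

/-- the subgroup generated by the commutators of elements of `A` with arbitrary elements and by
all `e`-th powers -/
def R (A : Set G) (e : ℕ) : Subgroup G :=
  closure ({x | ∃ a ∈ A, ∃ g : G, ⁅a, g⁆ = x} ∪ {x | ∃ g : G, g ^ e = x})

lemma comm_mem_R {A : Set G} {a : G} (ha : a ∈ A) (g : G) (e : ℕ) : ⁅a, g⁆ ∈ R A e :=
  subset_closure (Or.inl ⟨a, ha, g, rfl⟩)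

lemma comm_mem_R' {A : Set G} {a : G} (ha : a ∈ A) (g : G) (e : ℕ) : ⁅g, a⁆ ∈ R A e := by
  rw [← commutatorElement_inv]
  exact inv_mem (comm_mem_R ha g e)

lemma pow_mem_R (A : Set G) (g : G) (e : ℕ) : g ^ e ∈ R A e :=
  subset_closure (Or.inr ⟨g, rfl⟩)

lemma R_le {A : Set G} {e : ℕ} {N : Subgroup G} (h1 : ∀ a ∈ A, ∀ g : G, ⁅a, g⁆ ∈ N)
    (h2 : ∀ g : G, g ^ e ∈ N) : R A e ≤ N := by
  rw [R, closure_le]
  rintro x (⟨a, ha, g, rfl⟩ | ⟨g, rfl⟩)
  · exact h1 a ha g
  · exact h2 g

lemma R_mono {A B : Set G} (h : A ⊆ B) (e : ℕ) : R A e ≤ R B e :=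
  R_le (fun _ ha g => comm_mem_R (h ha) g e) (fun g => pow_mem_R B g e)

instance R_normal (A : Set G) (e : ℕ) : (R A e).Normal := by
  refine ⟨fun x hx g => ?_⟩
  have : R A e ≤ (R A e).comap (MulAut.conj g).toMonoidHom := by
    refine R_le (fun a ha y => ?_) (fun y => ?_)
    · change g * ⁅a, y⁆ * g⁻¹ ∈ R A e
      have : g * ⁅a, y⁆ * g⁻¹ = ⁅a, g⁆⁻¹ * ⁅a, g * y⁆ := by
        simp only [commutatorElement_def]
        group
      rw [this]
      exact mul_mem (inv_mem (comm_mem_R ha _ e)) (comm_mem_R ha _ e)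
    · change g * y ^ e * g⁻¹ ∈ R A e
      rw [← conj_pow]
      exact pow_mem_R A _ e
  exact this hx

lemma R_finitary {A : Set G} {e : ℕ} {x : G} (hx : x ∈ R A e) :
    ∃ A0 : Set G, A0.Finite ∧ A0 ⊆ A ∧ x ∈ R A0 e := by
  induction hx using closure_induction with
  | mem x hx =>
    rcases hx with ⟨a, ha, g, rfl⟩ | ⟨g, rfl⟩
    · exact ⟨{a}, Set.finite_singleton a, Set.singleton_subset_iff.mpr ha,
        comm_mem_R (Set.mem_singleton a) g e⟩
    · exact ⟨∅, Set.finite_empty, Set.empty_subset _, pow_mem_R _ g e⟩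
  | one => exact ⟨∅, Set.finite_empty, Set.empty_subset _, one_mem _⟩
  | mul x y _ _ ihx ihy =>
    obtain ⟨A1, h1, h2, h3⟩ := ihx
    obtain ⟨A2, h4, h5, h6⟩ := ihy
    exact ⟨A1 ∪ A2, h1.union h4, Set.union_subset h2 h5,
      mul_mem (R_mono Set.subset_union_left e h3) (R_mono Set.subset_union_right e h6)⟩
  | inv x _ ih =>
    obtain ⟨A1, h1, h2, h3⟩ := ih
    exact ⟨A1, h1, h2, inv_mem h3⟩

lemma R_zero_le_commutator (A : Set G) : R A 0 ≤ commutator G :=
  R_le (fun a _ g => commutator_mem_commutator (mem_top a) (mem_top g))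
    (fun g => by rw [pow_zero]; exact one_mem _)

lemma R_zero_le (H : Subgroup G) [hH : H.Normal] : R (H : Set G) 0 ≤ H :=
  R_le (fun a ha g => by
    rw [commutatorElement_def, mul_assoc, mul_assoc, ← mul_assoc g]
    exact mul_mem ha (hH.conj_mem _ (inv_mem ha) g))
    (fun g => by rw [pow_zero]; exact one_mem _)

lemma commutator_le_R_univ : commutator G ≤ R (Set.univ : Set G) 0 :=
  commutator_le.mpr fun a _ g _ => comm_mem_R (Set.mem_univ a) g 0

/-- closed subgroups -/
structure Closed (H : Subgroup G) : Prop where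
  normal : H.Normal
  cover : ∀ F : Finset G, (F : Set G) ⊆ H → ∀ g : G, ∃ h ∈ H, h⁻¹ * g ∈ centralizer (F : Set G)
  wit : ∀ F : Finset G, (F : Set G) ⊆ H → ∀ e : ℕ, ∀ l ∈ H,
    l ∈ R (centralizer (F : Set G) : Set G) e →
      l ∈ R ((centralizer (F : Set G) : Set G) ∩ H) e

/-- the complement of `R H 0` in the derived subgroup -/
def D (H : Subgroup G) : Subgroup G where
  carrier := {x | x ∈ commutator G ∧ ∀ F : Finset G, (F : Set G) ⊆ H → ∀ e : ℕ, e ≠ 0 →
    x ∈ R (centralizer (F : Set G) : Set G) e}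
  one_mem' := ⟨one_mem _, fun _ _ _ _ => one_mem _⟩
  mul_mem' := fun ha hb => ⟨mul_mem ha.1 hb.1, fun F hF e he =>
    mul_mem (ha.2 F hF e he) (hb.2 F hF e he)⟩
  inv_mem' := fun ha => ⟨inv_mem ha.1, fun F hF e he => inv_mem (ha.2 F hF e he)⟩

lemma mem_D {H : Subgroup G} {x : G} : x ∈ D H ↔ x ∈ commutator G ∧
    ∀ F : Finset G, (F : Set G) ⊆ H → ∀ e : ℕ, e ≠ 0 →
      x ∈ R (centralizer (F : Set G) : Set G) e := Iff.rfl

instance D_normal (H : Subgroup G) : (D H).Normal :=
  ⟨fun _ hx g => ⟨(inferInstance : (commutator G).Normal).conj_mem _ hx.1 g,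
    fun F hF e he => (R_normal _ e).conj_mem _ (hx.2 F hF e he) g⟩⟩

lemma D_anti {H K : Subgroup G} (h : H ≤ K) : D K ≤ D H :=
  fun _ hx => ⟨hx.1, fun F hF e he => hx.2 F (hF.trans h) e he⟩

lemma D_le_commutator (H : Subgroup G) : D H ≤ commutator G := fun _ hx => hx.1

lemma Closed.commutator_le_sup (hG : FC G) {H : Subgroup G} (hH : Closed H) :
    commutator G ≤ R (H : Set G) 0 ⊔ D H := by
  classical
  refine commutator_le.mpr fun g _ b _ => ?_
  have hE := hG.finite_comm g
  have h1 : ∀ w : G, ∃ F : Finset G, (F : Set G) ⊆ H ∧ (w ∈ commutator G →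
      (∀ e : ℕ, e ≠ 0 → w ∈ R (centralizer (F : Set G) : Set G) e) → w ∈ D H) := by
    intro w
    by_cases hw : w ∈ D H
    · exact ⟨∅, by simp, fun _ _ => hw⟩
    · by_cases hw' : w ∈ commutator G
      · rw [mem_D, not_and] at hw
        have := hw hw'
        push Not at this
        obtain ⟨F, hF, e, he, hwF⟩ := this
        exact ⟨F, hF, fun _ h => absurd (h e he) hwF⟩
      · exact ⟨∅, by simp, fun h => absurd h hw'⟩
  choose F hF hFD using h1
  obtain ⟨h, hh, hc⟩ := hH.cover (hE.toFinset.biUnion F) (by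
    intro x hx
    simp only [Finset.coe_biUnion, Set.mem_iUnion] at hx
    obtain ⟨w, _, hw⟩ := hx
    exact hF w hw) b
  set c := h⁻¹ * b with hcdef
  have hb : ⁅g, b⁆ = ⁅g, h⁆ * (h * ⁅g, c⁆ * h⁻¹) := by
    simp only [hcdef, commutatorElement_def]
    group
  rw [hb]
  refine mul_mem_sup (comm_mem_R' hh g 0) ((D_normal H).conj_mem _ ?_ h)
  refine hFD _ (commutator_mem_commutator (mem_top g) (mem_top c)) fun e _ => ?_
  refine comm_mem_R' ?_ g e
  refine centralizer_le ?_ hc
  intro x hx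
  simp only [Finset.coe_biUnion, Set.mem_iUnion]
  exact ⟨⁅g, c⁆, hE.mem_toFinset.mpr ⟨c, rfl⟩, hx⟩

lemma Closed.exists_le {H : Subgroup G} (hH : Closed H) (N : Subgroup G) [hN : N.Normal]
    [N.FiniteIndex] : ∃ F : Finset G, (F : Set G) ⊆ H ∧ ∃ e : ℕ, e ≠ 0 ∧
      ∀ l ∈ H, l ∈ R (centralizer (F : Set G) : Set G) e → l ∈ N := by
  classical
  have h1 : ∀ q : G ⧸ N, ∃ f ∈ H, ∀ h ∈ H, (h : G ⧸ N) = q → (f : G ⧸ N) = q := by
    intro q
    by_cases hq : ∃ f ∈ H, (f : G ⧸ N) = q
    · obtain ⟨f, hf, hfq⟩ := hq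
      exact ⟨f, hf, fun _ _ _ => hfq⟩
    · exact ⟨1, one_mem _, fun h hh hhq => absurd ⟨h, hh, hhq⟩ hq⟩
  choose f hf hfq using h1
  have := Fintype.ofFinite (G ⧸ N)
  set F : Finset G := Finset.univ.image f with hFdef
  have hF : (F : Set G) ⊆ H := by
    intro x hx
    simp only [hFdef, Finset.coe_image, Finset.coe_univ, Set.image_univ] at hx
    obtain ⟨q, rfl⟩ := hx
    exact hf q
  refine ⟨F, hF, N.index, FiniteIndex.index_ne_zero, fun l hl hlR => ?_⟩
  refine R_le (fun k hk y => ?_) (fun g => N.pow_index_mem g) (hH.wit F hF _ l hl hlR)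
  obtain ⟨h, hh, hc⟩ := hH.cover {k} (by simpa using hk.2) y
  have hkc : k * (h⁻¹ * y) = (h⁻¹ * y) * k := hc k (by simp)
  set t := f (h : G ⧸ N) with htdef
  have ht : t⁻¹ * h ∈ N := QuotientGroup.eq.mp (hfq _ h hh rfl)
  have htk : t * k = k * t := hk.1 t (by simp [hFdef, htdef])
  have e1 : ⁅k, y⁆ = t * ⁅k, t⁻¹ * h⁆ * t⁻¹ := by
    have hy : y = h * (h⁻¹ * y) := by group
    calc ⁅k, y⁆ = k * h * (h⁻¹ * y) * k⁻¹ * (h⁻¹ * y)⁻¹ * h⁻¹ := by
          simp only [commutatorElement_def]; group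
      _ = k * h * k⁻¹ * (k * (h⁻¹ * y)) * k⁻¹ * (h⁻¹ * y)⁻¹ * h⁻¹ := by group
      _ = k * h * k⁻¹ * ((h⁻¹ * y) * k) * k⁻¹ * (h⁻¹ * y)⁻¹ * h⁻¹ := by rw [hkc]
      _ = (k * t) * t⁻¹ * h * k⁻¹ * h⁻¹ := by group
      _ = (t * k) * t⁻¹ * h * k⁻¹ * h⁻¹ := by rw [htk]
      _ = t * ⁅k, t⁻¹ * h⁆ * t⁻¹ := by simp only [commutatorElement_def]; group
  rw [e1]
  refine hN.conj_mem _ ?_ t
  rw [commutatorElement_def]
  exact mul_mem (hN.conj_mem _ ht k) (inv_mem ht)

lemma Closed.eq_one (hs : Sep G) {H : Subgroup G} (hH : Closed H) {x : G} (hx : x ∈ H)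
    (hxD : x ∈ D H) : x = 1 := by
  by_contra hne
  obtain ⟨N, h1, h2, h3⟩ := hs x hxD.1 hne
  obtain ⟨F, hF, e, he, h⟩ := hH.exists_le N
  exact h3 (h x hx (hxD.2 F hF e he))

/-- the subgroup `R H 0 ⊔ D K` is closed in the derived subgroup -/
lemma Closed.exists_normal (hG : FC G) {H K : Subgroup G} (hH : Closed H) (hHK : H ≤ K) {x : G}
    (hx : x ∈ commutator G) (hxB : x ∉ R (H : Set G) 0 ⊔ D K) :
    ∃ N : Subgroup G, N.Normal ∧ N.FiniteIndex ∧ R (H : Set G) 0 ⊔ D K ≤ N ∧ x ∉ N := by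
  classical
  have := hH.normal
  obtain ⟨l, hl, d, hd, rfl⟩ := mem_sup_of_normal_right.mp (hH.commutator_le_sup hG hx)
  have hdK : d ∉ D K := fun h => hxB (mul_mem_sup hl h)
  rw [mem_D, not_and] at hdK
  have h1 := hdK hd.1
  push Not at h1
  obtain ⟨F, hF, e, he, hdF⟩ := h1
  obtain ⟨N0, hN0, hN0', hRN0, hdN0⟩ := exists_normal_ge (R (centralizer (F : Set G) : Set G) e)
    (centralizer (F : Set G)) (hG.finiteIndex_centralizer F.finite_toSet)
    (fun a ha g => comm_mem_R ha g e) he (fun g => pow_mem_R _ g e) hdF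
  obtain ⟨F1, hF1, e1, he1, hle⟩ := hH.exists_le N0
  set R1 := R (centralizer (F1 : Set G) : Set G) e1 with hR1
  have hdB : d ∉ R (H : Set G) 0 ⊔ (N0 ⊓ R1) := by
    intro h
    obtain ⟨l', hl', n, hn, hln⟩ := mem_sup_of_normal_right.mp h
    have h2 : l' ∈ R1 := by
      have : l' = d * n⁻¹ := by rw [← hln]; group
      rw [this]
      exact mul_mem (hd.2 F1 hF1 e1 he1) (inv_mem hn.2)
    exact hdN0 (hln ▸ mul_mem (hle l' (R_zero_le H hl') h2) hn.1)
  obtain ⟨N, hN, hN', hBN, hdN⟩ := exists_normal_ge (R (H : Set G) 0 ⊔ (N0 ⊓ R1))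
    (centralizer ((F : Set G) ∪ F1))
    (hG.finiteIndex_centralizer (F.finite_toSet.union F1.finite_toSet))
    (fun a ha g => mem_sup_right ⟨hRN0 (comm_mem_R (centralizer_le Set.subset_union_left ha) g e),
      comm_mem_R (centralizer_le Set.subset_union_right ha) g e1⟩)
    (mul_ne_zero he he1)
    (fun g => mem_sup_right ⟨hRN0 (by rw [mul_comm, pow_mul]; exact pow_mem_R _ _ e),
      by rw [pow_mul]; exact pow_mem_R _ _ e1⟩) hdB
  refine ⟨N, hN, hN', sup_le (le_sup_left.trans hBN) fun y hy => hBN (mem_sup_right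
    ⟨hRN0 (hy.2 F hF e he), hy.2 F1 (hF1.trans hHK) e1 he1⟩), fun h => hdN ?_⟩
  have hlN : l ∈ N := hBN (mem_sup_left hl)
  exact (mul_mem_cancel_left hlN).mp h

lemma closed_bot : Closed (⊥ : Subgroup G) where
  normal := inferInstance
  cover := fun F hF g => ⟨1, one_mem _, fun x hx => by
    have : x = 1 := mem_bot.mp (hF hx)
    simp [this]⟩
  wit := fun F _ e l hl _ => by
    rw [mem_bot.mp hl]
    exact one_mem _

lemma finset_subset_of_chain {ι : Type*} [LinearOrder ι] [Nonempty ι] {H : ι → Subgroup G}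
    (hm : Monotone H) (F : Finset G) (hF : (F : Set G) ⊆ (⨆ i, H i : Subgroup G)) :
    ∃ i, (F : Set G) ⊆ H i := by
  classical
  induction F using Finset.induction_on with
  | empty => exact ⟨Classical.arbitrary ι, by simp⟩
  | insert a F _ ih =>
    rw [Finset.coe_insert, Set.insert_subset_iff] at hF
    obtain ⟨i, hi⟩ := ih hF.2
    obtain ⟨j, hj⟩ := (mem_iSup_of_directed hm.directed_le).mp hF.1
    refine ⟨max i j, ?_⟩
    rw [Finset.coe_insert, Set.insert_subset_iff]
    exact ⟨hm (le_max_right i j) hj, hi.trans (hm (le_max_left i j))⟩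

lemma closed_iSup {ι : Type*} [LinearOrder ι] {H : ι → Subgroup G} (hm : Monotone H)
    (hH : ∀ i, Closed (H i)) : Closed (⨆ i, H i) := by
  classical
  rcases isEmpty_or_nonempty ι with hι | hι
  · rw [iSup_of_empty]
    exact closed_bot
  refine ⟨⟨fun x hx g => ?_⟩, fun F hF g => ?_, fun F hF e l hl hlR => ?_⟩
  · obtain ⟨j, hj⟩ := (mem_iSup_of_directed hm.directed_le).mp hx
    exact le_iSup H j ((hH j).normal.conj_mem x hj g)
  · obtain ⟨i, hi⟩ := finset_subset_of_chain hm F hF
    obtain ⟨h, hh, hc⟩ := (hH i).cover F hi g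
    exact ⟨h, le_iSup H i hh, hc⟩
  · obtain ⟨i, hi⟩ := finset_subset_of_chain hm (insert l F) (by
      rw [Finset.coe_insert, Set.insert_subset_iff]
      exact ⟨hl, hF⟩)
    rw [Finset.coe_insert, Set.insert_subset_iff] at hi
    exact R_mono (Set.inter_subset_inter_right _ (le_iSup H i)) e
      ((hH i).wit F hi.2 e l hi.1 hlR)

/-- closure under a finitary operation with countable values -/
lemma exists_small_closed {X : Type u} (op : Finset X → Set X) (hop : ∀ F, (op F).Countable)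
    (A : Set X) : ∃ S : Set X, A ⊆ S ∧ (∀ F : Finset X, (F : Set X) ⊆ S → op F ⊆ S) ∧
      #S ≤ max ℵ₀ #A := by
  classical
  let step : Set X → Set X := fun S => S ∪ ⋃ l : List S, op (l.map Subtype.val).toFinset
  have hstep : ∀ S : Set X, #S ≤ max ℵ₀ #A → #(step S) ≤ max ℵ₀ #A := by
    intro S hS
    refine (mk_union_le _ _).trans (add_le_of_le (le_max_left _ _) hS ?_)
    refine (mk_iUnion_le _).trans ?_
    refine mul_le_of_le (le_max_left _ _) ((mk_list_le_max _).trans (max_le (le_max_left _ _) hS)) ?_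
    exact ciSup_le' fun l => (le_aleph0_iff_set_countable.mpr (hop _)).trans (le_max_left _ _)
  let S : ℕ → Set X := fun n => step^[n] A
  have hS : ∀ n, S (n + 1) = step (S n) := fun n => Function.iterate_succ_apply' step n A
  have hmono : Monotone S := monotone_nat_of_le_succ fun n => by
    rw [hS]
    exact Set.subset_union_left
  have hcard : ∀ n, #(S n) ≤ max ℵ₀ #A := by
    intro n
    induction n with
    | zero => exact le_max_right _ _
    | succ n ih => rw [hS]; exact hstep _ ih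
  refine ⟨⋃ n, S n, Set.subset_iUnion S 0, fun F hF => ?_, ?_⟩
  · obtain ⟨n, hn⟩ : ∃ n, (F : Set X) ⊆ S n :=
      hmono.directed_le.exists_mem_subset_of_finset_subset_biUnion hF
    refine Set.Subset.trans ?_ (Set.subset_iUnion S (n + 1))
    rw [hS]
    refine Set.Subset.trans ?_ Set.subset_union_right
    refine Set.subset_iUnion_of_subset (F.toList.attach.map fun x =>
      (⟨x.1, hn (Finset.mem_toList.mp x.2)⟩ : S n)) ?_
    have : (List.map Subtype.val (F.toList.attach.map fun x =>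
      (⟨x.1, hn (Finset.mem_toList.mp x.2)⟩ : S n))).toFinset = F := by
      ext x
      simp
    rw [this]
  · have h1 := mk_iUnion_le_lift S
    simp only [lift_id', mk_nat, lift_aleph0] at h1
    refine h1.trans (mul_le_of_le (le_max_left _ _) (le_max_left _ _) ?_)
    exact ciSup_le' hcard

/-- a monotone closure operator producing small closed subgroups -/
lemma exists_closure (hG : FC G) : ∃ cl : Set G → Subgroup G, Monotone cl ∧
    (∀ A : Set G, A ⊆ (cl A : Set G)) ∧ (∀ A, Closed (cl A)) ∧ ∀ A, #(cl A) ≤ max ℵ₀ #A := by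
  classical
  have h1 : ∀ F : Finset G, ∃ T : Set G, T.Finite ∧
      ∀ g : G, ∃ h ∈ T, h⁻¹ * g ∈ centralizer (F : Set G) := by
    intro F
    have := hG.finiteIndex_centralizer F.finite_toSet
    refine ⟨Set.range fun q : G ⧸ centralizer (F : Set G) => q.out, Set.finite_range _,
      fun g => ⟨_, ⟨(g : G ⧸ centralizer (F : Set G)), rfl⟩, ?_⟩⟩
    exact QuotientGroup.eq.mp (Quotient.out_eq _)
  choose T hT hT' using h1
  have h2 : ∀ (F : Finset G) (e : ℕ) (l : G), ∃ W : Set G, W.Finite ∧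
      W ⊆ centralizer (F : Set G) ∧ (l ∈ R (centralizer (F : Set G) : Set G) e → l ∈ R W e) := by
    intro F e l
    by_cases hl : l ∈ R (centralizer (F : Set G) : Set G) e
    · obtain ⟨W, h1, h2, h3⟩ := R_finitary hl
      exact ⟨W, h1, h2, fun _ => h3⟩
    · exact ⟨∅, Set.finite_empty, Set.empty_subset _, fun h => absurd h hl⟩
  choose W hW hW' hW'' using h2
  let op : Finset G → Set G := fun F =>
    {1} ∪ (⋃ a ∈ F, ⋃ b ∈ F, {a * b⁻¹}) ∪ (⋃ a ∈ F, {h | IsConj a h}) ∪ T F ∪
      ⋃ F' ∈ F.powerset, ⋃ l ∈ F, ⋃ e : ℕ, W F' e l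
  have hop : ∀ F, (op F).Countable := by
    intro F
    refine ((((Set.countable_singleton _).union ?_).union ?_).union (hT F).countable).union ?_
    · exact F.countable_toSet.biUnion fun a _ => F.countable_toSet.biUnion fun b _ =>
        Set.countable_singleton _
    · exact F.countable_toSet.biUnion fun a _ => (hG a).countable
    · exact F.powerset.countable_toSet.biUnion fun F' _ => F.countable_toSet.biUnion fun l _ =>
        Set.countable_iUnion fun e => (hW F' e l).countable
  let c : Set G → Set G := fun A =>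
    {x | ∀ S : Set G, A ⊆ S → (∀ F : Finset G, (F : Set G) ⊆ S → op F ⊆ S) → x ∈ S}
  have hc : ∀ A, ∀ F : Finset G, (F : Set G) ⊆ c A → op F ⊆ c A :=
    fun A F hF x hx S hS hS' => hS' F (fun y hy => hF hy S hS hS') hx
  have hone : ∀ A, (1 : G) ∈ c A := fun A => hc A ∅ (by simp) (by simp [op])
  have hdiv : ∀ A, ∀ a ∈ c A, ∀ b ∈ c A, a * b⁻¹ ∈ c A := by
    intro A a ha b hb
    refine hc A {a, b} (by simp [Set.insert_subset_iff, ha, hb]) ?_
    refine Or.inl (Or.inl (Or.inl (Or.inr ?_)))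
    simp only [Set.mem_iUnion, Set.mem_singleton_iff]
    exact ⟨a, by simp, b, by simp, rfl⟩
  let cl : Set G → Subgroup G := fun A => Subgroup.ofDiv (c A) ⟨1, hone A⟩ (hdiv A)
  have hcl : ∀ A x, x ∈ cl A ↔ x ∈ c A := fun _ _ => Iff.rfl
  refine ⟨cl, fun A B hAB x hx S hS hS' => hx S (hAB.trans hS) hS', fun A x hx S hS _ => hS hx,
    fun A => ⟨⟨fun x hx g => ?_⟩, fun F hF g => ?_, fun F hF e l hl hlR => ?_⟩, fun A => ?_⟩
  · refine hc A {x} (by simpa using (hcl A x).mp hx) (Or.inl (Or.inl (Or.inr ?_)))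
    simp only [Set.mem_iUnion]
    exact ⟨x, by simp, isConj_iff.mpr ⟨g, rfl⟩⟩
  · obtain ⟨h, hh, hh'⟩ := hT' F g
    exact ⟨h, hc A F hF (Or.inl (Or.inr hh)), hh'⟩
  · refine R_mono (Set.subset_inter (hW' F e l) fun x hx => ?_) e (hW'' F e l hlR)
    refine hc A (insert l F) (by
      rw [Finset.coe_insert, Set.insert_subset_iff]
      exact ⟨hl, hF⟩) (Or.inr ?_)
    simp only [Set.mem_iUnion]
    exact ⟨F, Finset.mem_powerset.mpr (Finset.subset_insert l F), l, Finset.mem_insert_self l F,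
      e, hx⟩
  · obtain ⟨S, hS1, hS2, hS3⟩ := exists_small_closed op hop A
    exact (mk_le_mk_of_subset (s := c A) fun x hx => hx S hS1 hS2).trans hS3

end Pool.Agent.Work.MP_102156_al
end

-- merged part: Pool.Agent.Work.MP_102156_al.Good
section
/-!
A point-finite separating family of finite index normal subgroups on the derived subgroup.
-/

set_option autoImplicit false

open Subgroup Cardinal
open scoped commutatorElement

namespace Pool.Agent.Work.MP_102156_al

universe u

/-- there is a family of finite index normal subgroups which is point-finite and separating on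
the derived subgroup -/
def Good (G : Type u) [Group G] : Prop :=
  ∃ 𝒩 : Set (Subgroup G), (∀ N ∈ 𝒩, N.Normal ∧ N.FiniteIndex) ∧
    (∀ x ∈ commutator G, {N ∈ 𝒩 | x ∉ N}.Finite) ∧
    ∀ x ∈ commutator G, x ≠ 1 → ∃ N ∈ 𝒩, x ∉ N

variable {G : Type u} [Group G]

lemma good_of_countable (ht : IsMulTorsion G) (hG : FC G) (hs : Sep G)
    (hc : (commutator G : Set G).Countable) : Good G := by
  classical
  obtain ⟨x, hx⟩ := hc.exists_eq_range ⟨1, one_mem _⟩
  let F : ℕ → Subgroup G := fun n => normalClosure (x '' {k | k < n})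
  have hFfin : ∀ n, (F n : Set G).Finite := fun n =>
    hG.finite_normalClosure ht ((Set.finite_lt_nat n).image x)
  have hFle : ∀ n, F n ≤ commutator G := fun n => normalClosure_le_normal (by
    rw [hx]
    exact Set.image_subset_range _ _)
  have hFmono : Monotone F := fun a b hab =>
    normalClosure_mono (Set.image_mono fun k hk => lt_of_lt_of_le hk hab)
  have hxF : ∀ k n, k < n → x k ∈ F n := fun k n h => subset_normalClosure ⟨k, h, rfl⟩
  choose N hN1 hN2 hN3 using fun n => hs.exists_of_finite (hFfin (n + 1)) (hFle (n + 1))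
  refine ⟨Set.range fun n => F n ⊔ N n, ?_, fun y hy => ?_, fun y hy hne => ?_⟩
  · rintro _ ⟨n, rfl⟩
    have := hN1 n
    have := hN2 n
    exact ⟨inferInstance, finiteIndex_of_le le_sup_right⟩
  · have hy' : y ∈ Set.range x := hx ▸ hy
    obtain ⟨k, rfl⟩ := hy'
    refine (((Set.finite_le_nat k).image fun n => F n ⊔ N n)).subset ?_
    rintro _ ⟨⟨n, rfl⟩, hn⟩
    refine ⟨n, ?_, rfl⟩
    by_contra hlt
    exact hn (mem_sup_left (hxF k n (not_le.mp hlt)))
  · have hy' : y ∈ Set.range x := hx ▸ hy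
    obtain ⟨k, rfl⟩ := hy'
    have hex : ∃ n, x k ∈ F (n + 1) := ⟨k, hxF k _ (Nat.lt_succ_self k)⟩
    set n := Nat.find hex with hn
    have h1 : x k ∈ F (n + 1) := Nat.find_spec hex
    have h2 : x k ∉ F n := by
      rcases Nat.eq_zero_or_pos n with h0 | h0
      · rw [h0]
        intro h
        apply hne
        simpa [F] using h
      · have := Nat.find_min hex (m := n - 1) (by omega)
        rwa [Nat.sub_add_cancel h0] at this
    refine ⟨_, ⟨n, rfl⟩, fun h => h2 ?_⟩
    have := hN1 n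
    obtain ⟨f, hf, z, hz, hfz⟩ := mem_sup_of_normal_right.mp h
    have h3 : z ∈ F (n + 1) := by
      have : z = f⁻¹ * x k := by rw [← hfz]; group
      rw [this]
      exact mul_mem (inv_mem (hFmono (Nat.le_succ n) hf)) h1
    rw [← hfz, hN3 n z h3 hz, mul_one]
    exact hf

lemma mem_commutator_quotient (B : Subgroup G) [B.Normal] {q : G ⧸ B} :
    q ∈ commutator (G ⧸ B) ↔ ∃ x ∈ commutator G, (x : G ⧸ B) = q := by
  have : commutator (G ⧸ B) = (commutator G).map (QuotientGroup.mk' B) := by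
    rw [map_commutator_eq, MonoidHom.range_eq_top.mpr (QuotientGroup.mk'_surjective B)]
    rfl
  rw [this]
  rfl

lemma Good.pullback (B : Subgroup G) [B.Normal] (h : Good (G ⧸ B)) :
    ∃ 𝒩 : Set (Subgroup G), (∀ N ∈ 𝒩, N.Normal ∧ N.FiniteIndex ∧ B ≤ N) ∧
      (∀ x ∈ commutator G, {N ∈ 𝒩 | x ∉ N}.Finite) ∧
      ∀ x ∈ commutator G, x ∉ B → ∃ N ∈ 𝒩, x ∉ N := by
  obtain ⟨𝒩, h1, h2, h3⟩ := h
  refine ⟨(fun N => N.comap (QuotientGroup.mk' B)) '' 𝒩, ?_, fun x hx => ?_, fun x hx hxB => ?_⟩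
  · rintro _ ⟨N, hN, rfl⟩
    refine ⟨(h1 N hN).1.comap _, ⟨?_⟩, fun b hb => ?_⟩
    · rw [index_comap_of_surjective _ (QuotientGroup.mk'_surjective B)]
      exact (h1 N hN).2.index_ne_zero
    · rw [mem_comap, QuotientGroup.mk'_apply, (QuotientGroup.eq_one_iff b).mpr hb]
      exact N.one_mem
  · refine ((h2 x ((mem_commutator_quotient B).mpr ⟨x, hx, rfl⟩)).image
      fun N => N.comap (QuotientGroup.mk' B)).subset ?_
    rintro _ ⟨⟨N, hN, rfl⟩, hxN⟩
    exact ⟨N, ⟨hN, hxN⟩, rfl⟩
  · obtain ⟨N, hN, hxN⟩ := h3 x ((mem_commutator_quotient B).mpr ⟨x, hx, rfl⟩)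
      (fun h => hxB ((QuotientGroup.eq_one_iff x).mp h))
    exact ⟨_, ⟨N, hN, rfl⟩, hxN⟩

lemma sep_quotient (B : Subgroup G) [B.Normal]
    (h : ∀ x ∈ commutator G, x ∉ B → ∃ N : Subgroup G, N.Normal ∧ N.FiniteIndex ∧ B ≤ N ∧ x ∉ N) :
    Sep (G ⧸ B) := by
  intro q hq hne
  obtain ⟨x, hx, rfl⟩ := (mem_commutator_quotient B).mp hq
  obtain ⟨N, h1, h2, h3, h4⟩ := h x hx fun hxB => hne ((QuotientGroup.eq_one_iff x).mpr hxB)
  refine ⟨N.map (QuotientGroup.mk' B), h1.map _ (QuotientGroup.mk'_surjective B),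
    ⟨ne_zero_of_dvd_ne_zero h2.index_ne_zero (index_map_dvd N (QuotientGroup.mk'_surjective B))⟩,
    ?_⟩
  rintro ⟨y, hy, hyx⟩
  have : y⁻¹ * x ∈ B := QuotientGroup.eq.mp hyx
  exact h4 ((mul_mem_cancel_left (inv_mem hy)).mp (h3 this))

/-- elements lying in all but finitely many members of a family of subgroups -/
def pointFinite (𝒩 : Set (Subgroup G)) : Subgroup G where
  carrier := {x | {N ∈ 𝒩 | x ∉ N}.Finite}
  one_mem' := by
    change {N ∈ 𝒩 | (1 : G) ∉ N}.Finite
    simp
  mul_mem' := fun {a b} ha hb => (Set.Finite.union ha hb).subset fun N hN => by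
    by_contra hcon
    simp only [Set.mem_union, Set.mem_ofPred_eq, not_or, not_and, not_not] at hcon
    exact hN.2 (mul_mem (hcon.1 hN.1) (hcon.2 hN.1))
  inv_mem' := fun {a} ha => Set.Finite.subset ha fun N hN => ⟨hN.1, fun h => hN.2 (inv_mem h)⟩

theorem good_aux (κ : Cardinal.{u}) : ∀ (G : Type u) [Group G], #(commutator G) = κ →
    IsMulTorsion G → FC G → Sep G → Good G := by
  induction κ using WellFoundedLT.induction with | _ κ ih => ?_
  intro G _ hκ ht hG hs
  classical
  rcases le_or_gt κ ℵ₀ with hle | hlt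
  · exact good_of_countable ht hG hs (le_aleph0_iff_set_countable.mp (hκ ▸ hle))
  obtain ⟨cl, hmono, hsub, hclosed, hcard⟩ := exists_closure hG
  obtain ⟨_, _, hord⟩ := exists_ord_eq_type_lt (commutator G)
  choose A hA _ hA' using fun x : commutator G => R_finitary (commutator_le_R_univ x.2)
  let Hp : commutator G → Subgroup G := fun i => cl (⋃ j : Set.Iic i, A j)
  have hHp : Monotone Hp := fun i j hij => hmono (Set.iUnion_subset fun k =>
    Set.subset_iUnion_of_subset (⟨k.1, le_trans k.2 hij⟩ : Set.Iic j) subset_rfl)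
  have hHpcard : ∀ i, #(Hp i) < κ := by
    intro i
    refine (hcard _).trans_lt (max_lt hlt ?_)
    refine (mk_iUnion_le _).trans_lt (mul_lt_of_lt hlt.le ?_ ?_)
    · exact hκ ▸ mk_Iic_lt i hord (hκ ▸ hlt.le)
    · exact (ciSup_le' fun j => (le_aleph0_iff_set_countable.mpr (hA _).countable)).trans_lt hlt
  let Hm : commutator G → Subgroup G := fun i => ⨆ j : Set.Iio i, Hp j
  have hHm : ∀ i, Closed (Hm i) := fun i =>
    closed_iSup (fun _ _ h => hHp h) fun _ => hclosed _
  have hmp : ∀ i, Hm i ≤ Hp i := fun i => iSup_le fun j => hHp (le_of_lt j.2)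
  have hpm : ∀ i j, i < j → Hp i ≤ Hm j := fun i j h =>
    le_iSup (fun k : Set.Iio j => Hp k) ⟨i, h⟩
  have hxL : ∀ i : commutator G, (i : G) ∈ R (Hp i : Set G) 0 := fun i =>
    R_mono ((Set.subset_iUnion (fun j : Set.Iic i => A j) ⟨i, le_refl i⟩).trans (hsub _)) 0 (hA' i)
  have hLm : ∀ (i : commutator G) (P : Subgroup G), (∀ j, j < i → R (Hp j : Set G) 0 ≤ P) →
      R (Hm i : Set G) 0 ≤ P := by
    intro i P hP
    refine R_le (fun a ha g => ?_) (fun g => by rw [pow_zero]; exact one_mem _)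
    rcases isEmpty_or_nonempty (Set.Iio i) with hι | hι
    · have : a = 1 := by
        have h1 : a ∈ ⨆ j : Set.Iio i, Hp j := ha
        rwa [iSup_of_empty, mem_bot] at h1
      rw [this, commutatorElement_one_left]
      exact one_mem _
    · obtain ⟨j, hj⟩ := (mem_iSup_of_directed
        (Monotone.directed_le (f := fun j : Set.Iio i => Hp j) fun _ _ h => hHp h)).mp ha
      exact hP j j.2 (comm_mem_R hj g 0)
  let B : commutator G → Subgroup G := fun i => R (Hm i : Set G) 0 ⊔ D (Hp i)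
  have hgood : ∀ i, Good (G ⧸ B i) := by
    intro i
    refine ih _ ?_ (G ⧸ B i) rfl (ht.of_surjective (QuotientGroup.mk'_surjective (B i)))
      (hG.quotient _) (sep_quotient _ fun x hx hxB => (hHm i).exists_normal hG (hmp i) hx hxB)
    refine lt_of_le_of_lt ?_ (hHpcard i)
    refine (mk_le_mk_of_subset (s := (commutator (G ⧸ B i) : Set (G ⧸ B i)))
      (t := (QuotientGroup.mk : G → G ⧸ B i) '' (Hp i : Set G)) ?_).trans mk_image_le
    intro q hq
    obtain ⟨x, hx, rfl⟩ := (mem_commutator_quotient (B i)).mp hq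
    obtain ⟨l, hl, d, hd, rfl⟩ :=
      mem_sup_of_normal_right.mp ((hclosed _ : Closed (Hp i)).commutator_le_sup hG hx)
    have := (hclosed _ : Closed (Hp i)).normal
    refine ⟨l, R_zero_le _ hl, QuotientGroup.eq.mpr ?_⟩
    rw [inv_mul_cancel_left]
    exact mem_sup_right hd
  choose 𝒩 h1 h2 h3 using fun i => (hgood i).pullback
  refine ⟨⋃ i, 𝒩 i, fun N hN => ?_, fun x hx => ?_, fun x hx hne => ?_⟩
  · obtain ⟨i, hi⟩ := Set.mem_iUnion.mp hN
    exact ⟨(h1 i N hi).1, (h1 i N hi).2.1⟩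
  · have key : ∀ i, R (Hp i : Set G) 0 ≤ pointFinite (⋃ i, 𝒩 i) := by
      intro i
      induction i using WellFoundedLT.induction with | _ i ihi => ?_
      intro y hy
      obtain ⟨l, hl, d, hd, rfl⟩ := mem_sup_of_normal_right.mp
        ((hHm i).commutator_le_sup hG (R_zero_le_commutator _ hy))
      refine mul_mem (hLm i _ ihi hl) ?_
      have hdL : d ∈ R (Hp i : Set G) 0 :=
        (mul_mem_cancel_left (R_mono (hmp i) 0 hl)).mp hy
      refine (h2 i d hd.1).subset ?_
      rintro N ⟨hN, hdN⟩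
      obtain ⟨j, hj⟩ := Set.mem_iUnion.mp hN
      rcases lt_trichotomy j i with hji | hji | hji
      · exact absurd ((h1 j N hj).2.2 (mem_sup_right (D_anti (hpm j i hji) hd))) hdN
      · exact ⟨hji ▸ hj, hdN⟩
      · exact absurd ((h1 j N hj).2.2 (mem_sup_left (R_mono (hpm i j hji) 0 hdL))) hdN
    exact key ⟨x, hx⟩ (hxL ⟨x, hx⟩)
  · obtain ⟨i, hi, hmin⟩ := WellFounded.has_min wellFounded_lt
      {i : commutator G | x ∈ R (Hp i : Set G) 0} ⟨⟨x, hx⟩, hxL ⟨x, hx⟩⟩
    have hxm : x ∉ R (Hm i : Set G) 0 := by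
      intro h
      rcases isEmpty_or_nonempty (Set.Iio i) with hι | hι
      · have := hLm i ⊥ (fun j hj => (hι.false ⟨j, hj⟩).elim) h
        exact hne (mem_bot.mp this)
      · have h4 := hLm i (⨆ j : Set.Iio i, R (Hp j : Set G) 0)
          (fun j hj => le_iSup (fun k : Set.Iio i => R (Hp k : Set G) 0) ⟨j, hj⟩) h
        obtain ⟨j, hj⟩ := (mem_iSup_of_directed (Monotone.directed_le
          (f := fun j : Set.Iio i => R (Hp j : Set G) 0) fun _ _ h => R_mono (hHp h) 0)).mp h4
        exact hmin j hj j.2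
    have hxB : x ∉ B i := by
      intro h
      obtain ⟨l, hl, d, hd, rfl⟩ := mem_sup_of_normal_right.mp h
      have := (hclosed _ : Closed (Hp i)).normal
      have hdL : d ∈ R (Hp i : Set G) 0 :=
        (mul_mem_cancel_left (R_mono (hmp i) 0 hl)).mp hi
      have := (hclosed _ : Closed (Hp i)).eq_one hs (R_zero_le _ hdL) hd
      rw [this, mul_one] at hxm
      exact hxm hl
    obtain ⟨N, hN, hxN⟩ := h3 i x hx hxB
    exact ⟨N, Set.mem_iUnion.mpr ⟨i, hN⟩, hxN⟩

theorem good (ht : IsMulTorsion G) (hG : FC G) (hs : Sep G) : Good G :=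
  good_aux _ G rfl ht hG hs

end Pool.Agent.Work.MP_102156_al
end

-- merged part: Pool.Agent.Work.MP_102156_al.Main
section
/-!
Twisting the finite quotients by central homomorphisms gives the embedding into a restricted
direct product of finite groups.
-/

set_option autoImplicit false

open Subgroup
open scoped commutatorElement IsMulCommutative

namespace Pool.Agent.Work.MP_102156_al

/-- twisting a homomorphism by a homomorphism into the centre -/
def twist {G Q : Type*} [Group G] [Group Q] (π : G →* Q) (θ : G →* center Q) : G →* Q where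
  toFun g := π g * ((θ g : center Q) : Q)⁻¹
  map_one' := by simp
  map_mul' a b := by
    have h := mem_center_iff.mp (inv_mem (θ a).2) (π b * ((θ b : center Q) : Q)⁻¹)
    rw [map_mul, map_mul, coe_mul, mul_inv_rev]
    calc π a * π b * (((θ b : center Q) : Q)⁻¹ * ((θ a : center Q) : Q)⁻¹)
        = π a * (π b * ((θ b : center Q) : Q)⁻¹ * ((θ a : center Q) : Q)⁻¹) := by group
      _ = π a * (((θ a : center Q) : Q)⁻¹ * (π b * ((θ b : center Q) : Q)⁻¹)) := by rw [h]
      _ = π a * ((θ a : center Q) : Q)⁻¹ * (π b * ((θ b : center Q) : Q)⁻¹) := by group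

lemma twist_apply {G Q : Type*} [Group G] [Group Q] (π : G →* Q) (θ : G →* center Q) (g : G) :
    twist π θ g = π g * ((θ g : center Q) : Q)⁻¹ := rfl

theorem embed (G : Type) [Group G] (ht : IsMulTorsion G) (hG : FC G) (hgood : Good G)
    (J : Type) (C : J → Type) [∀ j, AddCommGroup (C j)] (hC : ∀ j, IsAddCyclic (C j))
    (ψ : Additive (Abelianization G) ≃+ Π₀ j, C j) :
    ∃ (I : Type) (H : I → Type) (_ : ∀ i, Group (H i)) (_ : ∀ i, Finite (H i))
      (f : G →* ∀ i, H i), Function.Injective f ∧ ∀ g : G, {i : I | f g i ≠ 1}.Finite := by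
  classical
  obtain ⟨𝒩, hN, hfin, hsep⟩ := hgood
  choose c hc using fun j => (hC j).exists_generator
  let α : G →* Multiplicative (Π₀ j, C j) :=
    (AddMonoidHom.toMultiplicativeRight ψ.toAddMonoidHom).comp Abelianization.of
  have hα : ∀ g, (α g).toAdd = ψ (Additive.ofMul (Abelianization.of g)) := fun _ => rfl
  have hker : ∀ g, α g = 1 ↔ g ∈ commutator G := by
    intro g
    rw [← Abelianization.ker_of, MonoidHom.mem_ker]
    constructor
    · intro h
      have h1 : ψ (Additive.ofMul (Abelianization.of g)) = 0 := congrArg Multiplicative.toAdd h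
      exact Additive.ofMul.injective (ψ.map_eq_zero_iff.mp h1)
    · intro h
      apply Multiplicative.toAdd.injective
      rw [hα, h]
      exact map_zero ψ
  have hsurj : ∀ v : Π₀ j, C j, ∃ g, α g = Multiplicative.ofAdd v := by
    intro v
    obtain ⟨g, hg⟩ := QuotientGroup.mk_surjective (Additive.toMul (ψ.symm v))
    refine ⟨g, Multiplicative.toAdd.injective ?_⟩
    have : Abelianization.of g = Additive.toMul (ψ.symm v) := hg
    rw [hα, this]
    simp
  choose γ hγ using fun j => hsurj (DFinsupp.single j (c j))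
  have hsingle : ∀ j (n : ℕ), α (γ j ^ n) = Multiplicative.ofAdd (DFinsupp.single j (n • c j)) := by
    intro j n
    rw [map_pow, hγ, ← ofAdd_nsmul, ← DFinsupp.single_smul]
  have hord : ∀ j, IsOfFinAddOrder (c j) := by
    intro j
    obtain ⟨n, hn, hn1⟩ := isOfFinOrder_iff_pow_eq_one.mp (ht (γ j))
    refine isOfFinAddOrder_iff_nsmul_eq_zero.mpr ⟨n, hn, ?_⟩
    have h1 := hsingle j n
    rw [hn1, map_one] at h1
    exact DFinsupp.single_eq_zero.mp (Multiplicative.ofAdd.injective h1.symm)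
  have hCfin : ∀ j, Finite (C j) := by
    intro j
    have h1 := (hord j).finite_zmultiples
    exact Set.finite_univ_iff.mp (h1.subset fun x _ => hc j x)
  have hpow : ∀ j, γ j ^ addOrderOf (c j) ∈ commutator G := by
    intro j
    rw [← hker, hsingle, addOrderOf_nsmul_eq_zero, DFinsupp.single_zero]
    rfl
  have hnormal : ∀ N : 𝒩, (N : Subgroup G).Normal := fun N => (hN N N.2).1
  -- the twisted quotient maps
  have hθ : ∀ N : 𝒩, ∃ θ : G →* center (G ⧸ (N : Subgroup G)),
      (∀ g ∈ commutator G, θ g = 1) ∧ ∀ j, (∀ y : G, ⁅γ j, y⁆ ∈ (N : Subgroup G)) →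
        γ j ^ addOrderOf (c j) ∈ (N : Subgroup G) → (θ (γ j) : G ⧸ (N : Subgroup G)) = γ j := by
    intro N
    have h1 : ∀ j, ∃ φ : C j →+ Additive (center (G ⧸ (N : Subgroup G))),
        (∀ y : G, ⁅γ j, y⁆ ∈ (N : Subgroup G)) → γ j ^ addOrderOf (c j) ∈ (N : Subgroup G) →
          ((φ (c j)).toMul : G ⧸ (N : Subgroup G)) = γ j := by
      intro j
      by_cases h : (∀ y : G, ⁅γ j, y⁆ ∈ (N : Subgroup G)) ∧
          γ j ^ addOrderOf (c j) ∈ (N : Subgroup G)
      · have hz : ((γ j : G) : G ⧸ (N : Subgroup G)) ∈ center (G ⧸ (N : Subgroup G)) := by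
          rw [mem_center_iff]
          intro y
          induction y using QuotientGroup.induction_on with | _ y => ?_
          have h2 : ⁅(QuotientGroup.mk' (N : Subgroup G)) (γ j),
              (QuotientGroup.mk' (N : Subgroup G)) y⁆ = 1 := by
            rw [← map_commutatorElement]
            exact (QuotientGroup.eq_one_iff _).mpr (h.1 y)
          exact (commutatorElement_eq_one_iff_mul_comm.mp h2).symm
        have hdvd : addOrderOf (Additive.ofMul (⟨_, hz⟩ : center (G ⧸ (N : Subgroup G)))) ∣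
            addOrderOf (c j) := by
          rw [addOrderOf_dvd_iff_nsmul_eq_zero, ← ofMul_pow]
          congr 1
          apply Subtype.ext
          exact (QuotientGroup.eq_one_iff _).mpr h.2
        refine ⟨addMonoidHomOfForallMemZMultiples (hc j) hdvd, fun _ _ => ?_⟩
        rw [addMonoidHomOfForallMemZMultiples_apply_gen]
        rfl
      · exact ⟨0, fun h1 h2 => absurd ⟨h1, h2⟩ h⟩
    choose φ hφ using h1
    refine ⟨(AddMonoidHom.toMultiplicativeLeft (DFinsupp.liftAddHom φ)).comp α,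
      fun g hg => ?_, fun j h1 h2 => ?_⟩
    · rw [MonoidHom.comp_apply, (hker g).mpr hg, map_one]
    · rw [MonoidHom.comp_apply, hγ, ← hφ j h1 h2]
      congr 1
      change (DFinsupp.liftAddHom φ (DFinsupp.single j (c j))).toMul = _
      rw [DFinsupp.liftAddHom_apply_single]
  choose θ hθ1 hθ2 using hθ
  let τ : ∀ N : 𝒩, G →* G ⧸ (N : Subgroup G) := fun N => twist (QuotientGroup.mk' _) (θ N)
  have hτ : ∀ (N : 𝒩), ∀ g ∈ commutator G, τ N g = 1 ↔ g ∈ (N : Subgroup G) := by
    intro N g hg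
    change twist _ _ g = 1 ↔ _
    rw [twist_apply, hθ1 N g hg, coe_one, inv_one, mul_one]
    exact QuotientGroup.eq_one_iff g
  have hfin' : ∀ g ∈ commutator G, {N : 𝒩 | g ∉ (N : Subgroup G)}.Finite := by
    intro g hg
    refine ((hfin g hg).preimage (f := ((↑) : 𝒩 → Subgroup G))
      Subtype.val_injective.injOn).subset ?_
    exact fun N hN => ⟨N.2, hN⟩
  let P : Subgroup G :=
    { carrier := {g | {N : 𝒩 | τ N g ≠ 1}.Finite}
      one_mem' := by
        change {N : 𝒩 | τ N 1 ≠ 1}.Finite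
        simp
      mul_mem' := fun {a b} ha hb => (Set.Finite.union ha hb).subset fun N hN => by
        by_contra hcon
        simp only [Set.mem_union, Set.mem_ofPred_eq, not_or, not_not] at hcon
        exact hN (by rw [map_mul, hcon.1, hcon.2, one_mul])
      inv_mem' := fun {a} ha => Set.Finite.subset ha fun N hN h =>
        hN (by rw [map_inv, h, inv_one]) }
  have hPcomm : commutator G ≤ P := fun g hg =>
    (hfin' g hg).subset fun N hN h => hN ((hτ N g hg).mpr h)
  have hPγ : ∀ j, γ j ∈ P := by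
    intro j
    refine (((hG.finite_comm (γ j)).biUnion' (t := fun w _ => {N : 𝒩 | w ∉ (N : Subgroup G)})
      fun w hw => ?_).union (hfin' _ (hpow j))).subset ?_
    · obtain ⟨y, rfl⟩ := hw
      exact hfin' _ (commutator_mem_commutator (mem_top _) (mem_top _))
    · intro N hN
      by_contra hcon
      simp only [Set.mem_union, Set.mem_iUnion, Set.mem_ofPred_eq, not_or, not_exists,
        not_not] at hcon
      apply hN
      change twist _ _ _ = 1
      rw [twist_apply, hθ2 N j (fun y => hcon.1 _ ⟨y, rfl⟩) hcon.2]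
      exact mul_inv_cancel _
  have hP : ∀ g, g ∈ P := by
    have h1 : ∀ v : Π₀ j, C j, ∃ g ∈ P, α g = Multiplicative.ofAdd v := by
      intro v
      induction v using DFinsupp.induction with
      | h0 => exact ⟨1, one_mem _, map_one α⟩
      | ha j b v _ _ ih =>
        obtain ⟨g, hg, hgv⟩ := ih
        obtain ⟨n, rfl⟩ := AddSubgroup.mem_zmultiples_iff.mp (hc j b)
        refine ⟨γ j ^ n * g, mul_mem (zpow_mem (hPγ j) n) hg, ?_⟩
        rw [map_mul, map_zpow, hγ, hgv, ← ofAdd_zsmul, ← DFinsupp.single_smul]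
        rfl
    intro g
    obtain ⟨g', hg', hgg'⟩ := h1 (α g).toAdd
    have h2 : g'⁻¹ * g ∈ commutator G := by
      rw [← hker, map_mul, map_inv, hgg']
      exact inv_mul_cancel _
    exact (mul_mem_cancel_left (inv_mem hg')).mp (hPcomm h2)
  let H : 𝒩 ⊕ J → Type := fun i => match i with
    | Sum.inl N => G ⧸ (N : Subgroup G)
    | Sum.inr j => Multiplicative (C j)
  let instH : ∀ i, Group (H i) := fun i => match i with
    | Sum.inl N => inferInstanceAs (Group (G ⧸ (N : Subgroup G)))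
    | Sum.inr j => inferInstanceAs (Group (Multiplicative (C j)))
  let fs : ∀ i, G →* H i := fun i => match i with
    | Sum.inl N => τ N
    | Sum.inr j => (AddMonoidHom.toMultiplicative (DFinsupp.evalAddMonoidHom j)).comp α
  refine ⟨𝒩 ⊕ J, H, instH, fun i => ?_, MonoidHom.pi fs, ?_, fun g => ?_⟩
  · rcases i with N | j
    · have := (hN N N.2).2
      exact inferInstanceAs (Finite (G ⧸ (N : Subgroup G)))
    · exact inferInstanceAs (Finite (Multiplicative (C j)))
  · rw [injective_iff_map_eq_one]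
    intro g hg
    have h1 : g ∈ commutator G := by
      rw [← hker]
      apply Multiplicative.toAdd.injective
      ext j
      exact congrArg Multiplicative.toAdd (congrFun hg (Sum.inr j))
    by_contra hne
    obtain ⟨N, hN𝒩, hgN⟩ := hsep g h1 hne
    exact hgN ((hτ ⟨N, hN𝒩⟩ g h1).mp (congrFun hg (Sum.inl ⟨N, hN𝒩⟩)))
  · refine ((Set.Finite.image Sum.inl (hP g)).union
      ((α g).toAdd.support.finite_toSet.image Sum.inr)).subset ?_
    rintro (N | j) hi
    · exact Or.inl ⟨N, hi, rfl⟩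
    · refine Or.inr ⟨j, ?_, rfl⟩
      rw [Finset.mem_coe, DFinsupp.mem_support_iff]
      exact fun h => hi (congrArg Multiplicative.ofAdd h)

end Pool.Agent.Work.MP_102156_al
end
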